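import Mathlib
import Pool.Agent.Lib.MP_4a6af7_co.Cyc.Cycle

set_option autoImplicit false

namespace Pool.Agent.Lib.MP_4a6af7_co.Old.CycleConjecture

open Pool.Agent.Lib.MP_4a6af7_co.Cyc

/-- `n` matchings with at least `n` edges each, whose edges lie in the cycle with `t ≥ 2 n + 1`
vertices (the same edge of the cycle may occur in many matchings), have a rainbow matching of
size `n`. -/
theorem result (n t : ℕ) (ht : 2 * n + 1 ≤ t) (M : Fin n → Finset (Sym2 (Fin t)))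
    (hE : ∀ i, ∀ e ∈ M i, e ∈ (SimpleGraph.cycleGraph t).edgeSet)
    (hM : ∀ i, ∀ e ∈ M i, ∀ f ∈ M i, e ≠ f → ∀ v, v ∈ e → v ∉ f)
    (hn : ∀ i, n ≤ (M i).card) :
    ∃ e : Fin n → Sym2 (Fin t), (∀ i, e i ∈ M i) ∧ ∀ i j, i ≠ j → ∀ v, v ∈ e i → v ∉ e j := by
  rcases Nat.eq_zero_or_pos n with rfl | hp
  · exact ⟨Fin.elim0, fun j => j.elim0, fun j => j.elim0⟩
  obtain ⟨k, rfl⟩ : ∃ k, t = k + 3 := ⟨t - 3, by omega⟩
  obtain ⟨e, h1, h2⟩ := rainbow_pos ht (fun i => Finset.univ.filter fun v => ce v ∈ M i)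
    (fun i a ha b hb hab => hM i _ (Finset.mem_filter.mp ha).2 _ (Finset.mem_filter.mp hb).2
      fun e => hab (ce_inj e))
    (fun i => (hn i).trans ((Finset.card_le_card fun e he => by
      obtain ⟨v, rfl⟩ := ce_surj (hE i e he)
      exact Finset.mem_image_of_mem ce (Finset.mem_filter.mpr ⟨Finset.mem_univ _, he⟩)).trans
        Finset.card_image_le))
  exact ⟨fun i => ce (e i), fun i => (Finset.mem_filter.mp (h1 i)).2, h2⟩

end Pool.Agent.Lib.MP_4a6af7_co.Old.CycleConjecture
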