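import Mathlib
import Pool.Agent.Lib.MP_4a6af7_co.Girth

set_option autoImplicit false

namespace Pool.Agent.Lib.MP_4a6af7_co.Old.LargeGirth

open Pool.Agent.Lib.MP_4a6af7_co

/-- `n` matchings with at least `n` edges each, whose edges lie in a simple graph `G` (the same edge
of `G` may occur in many matchings), have a rainbow matching of size `n` as soon as the girth of `G`
exceeds `(17 + 3 log₂ n) n`. -/
theorem result (V : Type) (G : SimpleGraph V) (n : ℕ) (M : Fin n → Finset (Sym2 V))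
    (hE : ∀ i, ∀ e ∈ M i, e ∈ G.edgeSet)
    (hM : ∀ i, ∀ e ∈ M i, ∀ f ∈ M i, e ≠ f → ∀ v, v ∈ e → v ∉ f)
    (hn : ∀ i, n ≤ (M i).card)
    (hg : (((17 + 3 * Nat.log 2 n) * n : ℕ) : ℕ∞) < G.egirth) :
    ∃ e : Fin n → Sym2 V, (∀ i, e i ∈ M i) ∧ ∀ i j, i ≠ j → ∀ v, v ∈ e i → v ∉ e j := by
  rcases Nat.eq_zero_or_pos n with rfl | hpos
  · exact ⟨fun i => i.elim0, fun i => i.elim0, fun i => i.elim0⟩
  obtain ⟨a0, _⟩ : (M ⟨0, hpos⟩).Nonempty := Finset.card_pos.mp (lt_of_lt_of_le hpos (hn _))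
  obtain ⟨y, hy, hyy⟩ := rainbow_of_piv (ι := Fin n) a0 Meet meet_symm (IsM G)
    (fun s t hst h => ⟨fun e he => h.1 e (hst he), fun e he f hf => h.2 e (hst he) f (hst hf)⟩) n
    (by
      intro I F hne hN hF
      refine piv_log G n ?_ I F hne hN hF
      have : 16 + K n = 17 + 3 * Nat.log 2 n := by unfold K; omega
      rwa [this])
    n Finset.univ M (by simp) le_rfl (fun q _ => ⟨⟨hE q, hM q⟩, hn q⟩)
  exact ⟨y, fun i => hy i (Finset.mem_univ _),
    fun i j hij v h1 h2 => hyy i (Finset.mem_univ _) j (Finset.mem_univ _) hij ⟨v, h1, h2⟩⟩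

end Pool.Agent.Lib.MP_4a6af7_co.Old.LargeGirth
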