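import Mathlib
import Pool.Agent.Lib.MP_4a6af7_co.Deg.Cols

set_option autoImplicit false

namespace Pool.Agent.Lib.MP_4a6af7_co.Old.MaxDegreeTwo

open Pool.Agent.Lib.MP_4a6af7_co.Deg

/-- `n` matchings whose edges lie in a simple graph `G` of maximum degree at most two (the same edge
of `G` may occur in many matchings), all with at least `n` edges and all but at most one with at
least `n + 1` edges, have a rainbow matching of size `n`. -/
theorem result (V : Type) (G : SimpleGraph V) (hG : ∀ v, (G.neighborSet v).encard ≤ 2) (n : ℕ)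
    (M : Fin n → Finset (Sym2 V))
    (hE : ∀ i, ∀ e ∈ M i, e ∈ G.edgeSet)
    (hM : ∀ i, ∀ e ∈ M i, ∀ f ∈ M i, e ≠ f → ∀ v, v ∈ e → v ∉ f)
    (hn : ∀ i, n ≤ (M i).card)
    (hk : ∀ i j, (M i).card = n → (M j).card = n → i = j) :
    ∃ e : Fin n → Sym2 V, (∀ i, e i ∈ M i) ∧ ∀ i j, i ≠ j → ∀ v, v ∈ e i → v ∉ e j := by
  classical
  have hE' : ∀ e ∈ Finset.univ.biUnion M, e ∈ G.edgeSet := fun e he =>
    let ⟨i, _, h⟩ := Finset.mem_biUnion.mp he; hE i e h
  obtain ⟨𝒞, c1, c2, c3⟩ := decomp (Finset.univ.biUnion M) fun v e a1 f a2 g a3 b1 b2 b3 => by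
    obtain ⟨x, rfl⟩ := Sym2.mem_iff_exists.mp b1
    obtain ⟨y, rfl⟩ := Sym2.mem_iff_exists.mp b2
    obtain ⟨z, rfl⟩ := Sym2.mem_iff_exists.mp b3
    by_contra hc
    push Not at hc
    have h3 : ({x, y, z} : Set V).encard = 3 := Set.encard_eq_three.mpr
      ⟨x, y, z, fun e => hc.1 (e ▸ rfl), fun e => hc.2.1 (e ▸ rfl), fun e => hc.2.2 (e ▸ rfl), rfl⟩
    have h4 : ({x, y, z} : Set V) ⊆ G.neighborSet v := by
      rintro w (rfl | rfl | rfl)
      exacts [hE' _ a1, hE' _ a2, hE' _ a3]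
    exact absurd (h3 ▸ (Set.encard_le_encard h4).trans (hG v)) (by decide)
  exact rb_cols M hM (fun j e he => G.not_isDiag_of_mem_edgeSet (hE j e he))
    (fun F hF => ⟨fun e he => G.not_isDiag_of_mem_edgeSet (hE' e ((c1 F hF).1 he)), (c1 F hF).2⟩)
    (fun j e he => c2 e (Finset.mem_biUnion.mpr ⟨j, Finset.mem_univ _, he⟩)) c3
    (Z := Finset.univ.filter fun i => (M i).card = n)
    (Finset.card_le_one.mpr fun i hi j hj =>
      hk i j (Finset.mem_filter.mp hi).2 (Finset.mem_filter.mp hj).2)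
    (by simpa using hn) fun j hj => by
      have := hn j
      simp only [Finset.mem_filter, Finset.mem_univ, true_and, Fintype.card_fin] at hj ⊢
      omega

end Pool.Agent.Lib.MP_4a6af7_co.Old.MaxDegreeTwo
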